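import Pool.Agent.E870.P.FinalLef

/-!
# Murre's conjectures (B), (C) and (D) from the faithfulness of `End(h^d(X))` on `H^d(X)`

Let `LowClass` be the class of the varieties `X` which have a Chow–Künneth decomposition and for
which each `H^j(X)` is a direct factor, by means of correspondences, of the cohomology of varieties
of dimension at most `j` (in the precise sense of `IsLow`). It is closed under products and contains
all varieties which have a Chow–Künneth decomposition and satisfy the Lefschetz standard conjecture:
curves, surfaces, abelian varieties, complete intersections, their products, and so on. For the
varieties in `LowClass`, or in any smaller class closed under products which contains the curves, we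
show that Murre's conjectures (B), (C) and (D), for all Chow–Künneth decompositions, are together
equivalent to the single statement that for all `X` in the class the endomorphism ring of the motive
`h^d(X)`, `d = dim X`, acts faithfully on the middle cohomology group `H^d(X)`.

Proof. The faithfulness implies that the homologically trivial classes in `CH^i(h^(2i)(X))` vanish,
first for `dim X = 2i`, and then for all `X` by multiplication with the class `1` or with a point of
a curve; this gives the faithfulness of `End(h^b(X))` on `H^b(X)` for all `b`. Let `a` be a class in `CH^i(h^b(X))`, `b > 2i`, and let `z` be a class of degree zero on a curve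
`E`. Then `a × z` lies in `CH^(i+1)(h^(b+1)(X × E))`: the excess `b - 2i` drops by one, and by
induction `a × z = 0` for all `E` and `z`. This implies `a = 0` (the peeling lemma,
`Pool.Agent.E870.P.peel`, which rests on the principle of Bloch and Srinivas and on a degenerating
family of curves). Together these statements give (D), the first half of (B), and by a result in the
starting files (C). Finally, a correspondence which is the identity on `H^b(X)` and factors through
varieties of dimension at most `b` is the identity on `h^b(X)` by the faithfulness; so
`CH^i(h^b(X)) = 0` for `i > b`, the second half of (B).
-/

open Pool.Agent.H914 Pool.Agent.R903 Pool.Agent.E870.Q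

universe u v w

namespace Pool.Agent.Results.MP_38de51_ag.MurreByFaithfulness

/-- **For the varieties in `LowClass`, Murre's conjectures (B), (C) and (D) together are equivalent
to the faithfulness of the action of the endomorphisms of `h^d(X)` on `H^d(X)`, `d = dim X`.** -/
theorem result {k : Type u} [Field k] {𝒱 : VarClass k} {C : ChowTheory.{u, v} 𝒱}
    (W : WeilTheory.{u, v, w} C) (hC : IsGeometric C.toChowData) :
    (∀ X, W.HasCK X → LefschetzStd W X → LowClass W X) ∧ IsClosedClass (LowClass W) ∧
      ∀ P : 𝒱.Obj → Prop, IsClosedClass P →
      (∀ X, P X → LowClass W X) →
      ((∀ X, P X → W.MurreB X ∧ W.MurreC X ∧ MurreD W X) ↔ ∀ X, P X → FaithfulMid W X) :=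
  ⟨fun _ => Pool.Agent.E870.P.q_lowClass_of, Pool.Agent.E870.P.q_lowClass hC, fun _ hP hL =>
    Pool.Agent.E870.P.q_murre_iff hC hP hL⟩

end Pool.Agent.Results.MP_38de51_ag.MurreByFaithfulness
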